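import Pool.Agent.Helper74.DI.St

/-! Project DI (MP_26f0da_lc): module PNG (ping-pong). -/

set_option autoImplicit false

namespace Pool.Agent.Helper99.DI

open Pool.Agent.Helper74 Pool.Agent.Helper74.DI
open Pool.Agent.Helper74.WB (OP QW rl enc iv ap rd Red)

private lemma pp1 (p q σ : ℤ) (hσ : σ = 1 ∨ σ = -1) (h1 : 2 * |p| < |q|) (h2 : 0 < σ * (p * q)) :
    2 * |p| < |q + 5 * σ * p| ∧ 0 < σ * (p * (q + 5 * σ * p)) := by
  have hss : σ * σ = 1 := by rcases hσ with h | h <;> rw [h] <;> norm_num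
  have h3 : σ * (p * (q + 5 * σ * p)) = σ * (p * q) + 5 * p ^ 2 := by
    linear_combination 5 * p ^ 2 * hss
  constructor
  · rw [← abs_two, ← abs_mul]
    apply sq_lt_sq.mp
    have h4 : (q + 5 * σ * p) ^ 2 = q ^ 2 + 10 * (σ * (p * q)) + 25 * p ^ 2 := by
      linear_combination 25 * p ^ 2 * hss
    rw [h4]
    have h5 : (2 * p) ^ 2 < q ^ 2 := by
      apply sq_lt_sq.mpr
      rw [abs_mul, abs_two]
      exact h1
    nlinarith [sq_nonneg p]
  · rw [h3]
    positivity

private lemma pp2 (p q σ : ℤ) (hσ : σ = 1 ∨ σ = -1) (h1 : |q| < 2 * |p|) :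
    2 * |p| < |q + 5 * σ * p| ∧ 0 < σ * (p * (q + 5 * σ * p)) := by
  have hσ1 : |σ| = 1 := by rcases hσ with h | h <;> rw [h] <;> norm_num
  have hss : σ * σ = 1 := by rcases hσ with h | h <;> rw [h] <;> norm_num
  have h3 : σ * (p * (q + 5 * σ * p)) = σ * (p * q) + 5 * p ^ 2 := by
    linear_combination 5 * p ^ 2 * hss
  have hp : 0 < |p| := by
    have := abs_nonneg q
    linarith
  constructor
  · have h4 : |5 * σ * p| = 5 * |p| := by
      rw [abs_mul, abs_mul, hσ1]
      norm_num
    have h5 : |5 * σ * p| - |q| ≤ |q + 5 * σ * p| := by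
      have h6 := abs_sub_abs_le_abs_sub (5 * σ * p) (-q)
      rw [abs_neg, sub_neg_eq_add, add_comm (5 * σ * p) q] at h6
      exact h6
    rw [h4] at h5
    linarith
  · rw [h3]
    have h6 : |σ * (p * q)| = |p| * |q| := by rw [abs_mul, abs_mul, hσ1, one_mul]
    have h7 := neg_abs_le (σ * (p * q))
    rw [h6] at h7
    have h8 : p ^ 2 = |p| * |p| := by rw [← sq_abs, sq]
    rw [h8]
    nlinarith

private lemma pp3 (P q n : ℤ) (hn : n ≠ 0) (h1 : 2 * |P| < |q|) : |q| < 2 * |P + n * q| := by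
  have h2 : |q| ≤ |n * q| := by
    rw [abs_mul]
    have : 1 ≤ |n| := Int.one_le_abs hn
    nlinarith [abs_nonneg q]
  have h3 : |n * q| - |P| ≤ |P + n * q| := by
    have h6 := abs_sub_abs_le_abs_sub (n * q) (-P)
    rw [abs_neg, sub_neg_eq_add, add_comm (n * q) P] at h6
    exact h6
  linarith

/-- MODULE PNG. -/
theorem hPNG : StPNG := by
  refine ⟨?_, ?_, ?_, ?_⟩
  · rintro ⟨g, s⟩ ⟨p, q⟩
    cases s <;> simp [Av, iv]
  · rintro ⟨g, s⟩
    cases s <;> simp [Xc, Av]
  · rintro ⟨g, s⟩ ⟨k, t⟩ ⟨p, q⟩ hb ⟨h1, h2⟩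
    simp only at h1 h2
    have e : ∀ σ : ℤ, (p - g * q) + g * (q + 5 * σ * (p - g * q)) - g * (q + 5 * σ * (p - g * q)) =
        p - g * q := fun σ => by ring
    -- the general form of the claim
    have main : ∀ σ : ℤ, (σ = 1 ∨ σ = -1) →
        ((g : ℤ) = k → 0 < σ * ((p - k * q) * q)) →
        2 * |p - g * q| < |q + 5 * σ * (p - g * q)| ∧
          0 < σ * ((p - g * q) * (q + 5 * σ * (p - g * q))) := by
      intro σ hσ hs
      by_cases hkg : (g : ℤ) = k
      · have h3 := hs hkg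
        rw [← hkg] at h1 h3
        exact pp1 _ _ σ hσ h1 h3
      · have h4 : p - g * q = (p - k * q) + ((k : ℤ) - g) * q := by ring
        have h5 := pp3 (p - k * q) q ((k : ℤ) - g) (fun h => hkg (by linarith)) h1
        rw [← h4] at h5
        exact pp2 _ _ σ hσ h5
    have hcase : (g : ℤ) = k → t = s := by
      intro h
      have h' : g = k := by exact_mod_cast h
      subst h'
      by_contra hts
      apply hb
      cases s <;> cases t <;> simp_all [iv]
    cases s
    · have h3 := main (-1) (Or.inr rfl) (fun h => by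
        have := hcase h
        subst this
        simpa using h2)
      simp only [Xc, Av]
      norm_num at h3 ⊢
      exact h3
    · have h3 := main 1 (Or.inl rfl) (fun h => by
        have := hcase h
        subst this
        simpa using h2)
      simp only [Xc, Av]
      norm_num at h3 ⊢
      exact h3
  · rintro ⟨g, s⟩ ⟨h1, -⟩
    simp at h1

end Pool.Agent.Helper99.DI
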